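import Pool.Agent.H73.GWQ.Stmts

/-!
# Row B4Q of project GWQ (divergence of words with different first letters)
-/

set_option autoImplicit false

open Classical

namespace GWQ

section letters

variable {G V : Type*} [Group G] (D : QM G V)

theorem B4Q (h1 : H4QStmt D) (h2 : B3QStmt D) : B4QStmt D := by
  intro a b k hP x l l'
  have e1 : ∀ (z : Bool) (m : List Bool), GWT.prw a b (z :: m) = GWT.prw a b [z] * GWT.prw a b m := by
    intro z m
    rw [GWT.prw, GWT.prw, GWT.prw, List.map_cons, List.prod_cons, List.map_singleton,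
      List.prod_singleton]
  have e2 : ∀ (z : Bool) (m : List Bool),
      D.d (GWT.prw a b [z]) (GWT.prw a b (z :: m)) = D.nm (GWT.prw a b m) := by
    intro z m
    have h := D.inv (GWT.prw a b [z]) 1 (GWT.prw a b m)
    rw [mul_one, ← e1 z m] at h
    exact h
  have e3 : ∀ z : Bool, GWT.prw a b [z] = if z then b else a := by
    intro z
    rw [GWT.prw, List.map_singleton, List.prod_singleton]
  have hk := hP.k_pos
  have hδ := hP.hδ
  have hlong : ∀ z : Bool, 1000 * k ≤ D.nm (GWT.prw a b [z]) := by
    intro z
    rw [e3]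
    cases z
    · exact hP.long a (Set.mem_insert _ _)
    · exact hP.long b (Set.mem_insert_of_mem _ rfl)
  have hdiv : D.nm (GWT.prw a b [x]) + D.nm (GWT.prw a b [!x]) ≤
      D.d (GWT.prw a b [x]) (GWT.prw a b [!x]) + k := by
    rw [e3, e3]
    cases x
    · exact hP.div
    · have h := hP.div
      rw [D.comm] at h
      change D.nm b + D.nm a ≤ D.d b a + k
      omega
  have b1 := h2 a b k hP [x] l
  have b2 := h2 a b k hP [!x] l'
  rw [List.singleton_append] at b1 b2
  rw [← e2 x l] at b1
  rw [← e2 (!x) l'] at b2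
  have l1 := hlong x
  have l2 := hlong (!x)
  generalize GWT.prw a b [x] = X at *
  generalize GWT.prw a b [!x] = Y at *
  generalize GWT.prw a b (x :: l) = p at *
  generalize GWT.prw a b ((!x) :: l') = q at *
  have q1 := h1 1 p X Y
  have q2 := h1 1 q Y p
  have c1 := D.comm X p
  have c2 := D.comm Y p
  have c3 := D.comm Y q
  have c4 := D.comm p q
  unfold QM.nm at *
  rcases le_total (D.d 1 X + D.d p Y) (D.d 1 Y + D.d p X) with h3 | h3
  · rw [max_eq_right h3] at q1
    omega
  · rw [max_eq_left h3] at q1
    rcases le_total (D.d 1 Y + D.d q p) (D.d 1 p + D.d q Y) with h4 | h4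
    · rw [max_eq_right h4] at q2
      omega
    · rw [max_eq_left h4] at q2
      omega

end letters

end GWQ
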