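import Pool.Agent.H73.GWQ.Stmts2

/-!
# Row N2Q of project GWQ (a power of a loxodromic element is regular)
-/

set_option autoImplicit false

open Classical

namespace GWQ

section wpd

variable {G V : Type*} [Group G] (D : QM G V)

theorem N2Q : N2QStmt D := by
  intro h A hA
  by_contra hcon
  push Not at hcon
  have h1 : ∀ N : ℕ, 1 ≤ N → D.nm (h ^ (2 * N)) ≤ D.nm (h ^ N) + 8 * D.δ := by
    intro N hN
    have h2 := hcon N hN
    unfold Reg at h2
    rw [← pow_mul, mul_comm N 2] at h2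
    omega
  have h2 : ∀ i : ℕ, D.nm (h ^ (2 ^ i)) ≤ D.nm h + 8 * D.δ * i := by
    intro i
    induction i with
    | zero => rw [pow_zero, pow_one, mul_zero, add_zero]
    | succ i ih =>
      have h3 := h1 (2 ^ i) Nat.one_le_two_pow
      rw [← pow_succ'] at h3
      rw [mul_add, mul_one]
      omega
  set m : ℕ := A * (D.nm h + 1) + A * (8 * D.δ) + 1 with hm
  have h3 := hA (2 ^ (4 * m))
  have h4 := h2 (4 * m)
  have h5 : 2 ^ (4 * m) ≤ A * (D.nm h + 8 * D.δ * (4 * m) + 1) :=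
    h3.trans (Nat.mul_le_mul_left _ (by omega))
  have h6 : A * (D.nm h + 8 * D.δ * (4 * m) + 1) =
      A * (D.nm h + 1) + A * (8 * D.δ) * (4 * m) := by ring
  rw [h6] at h5
  generalize A * (D.nm h + 1) = C at *
  generalize A * (8 * D.δ) = E at *
  have h7 : m + 1 ≤ 2 ^ m := Nat.lt_two_pow_self
  have h8 : (m + 1) ^ 4 ≤ 2 ^ (4 * m) := by
    rw [mul_comm 4 m, pow_mul]
    exact Nat.pow_le_pow_left h7 4
  have h9 : 4 * m ^ 2 < (m + 1) ^ 4 := by
    have : 1 ≤ m := by omega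
    nlinarith [sq_nonneg (m : ℤ), Nat.zero_le (m ^ 3), Nat.zero_le (m ^ 4)]
  have h10 : C + E * (4 * m) ≤ 4 * m ^ 2 := by
    have h11 : C + E ≤ m := by omega
    have h12 : 1 ≤ m := by omega
    nlinarith [Nat.zero_le (C * m), Nat.zero_le (E * m)]
  omega

end wpd

end GWQ
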