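import Pool.Agent.H73.GWQ.Stmts

/-!
# Row SOQ of project GWQ (soundness)
-/

set_option autoImplicit false

open Classical

namespace GWQ

section qm2

variable {G V : Type*} [Group G] (D : QM G V)

theorem SOQ {B : Type*} (h1 : PLQStmt D B) : SOQStmt D B := by
  intro val sh cmp θ E c₁ R ok hc hδ hθ hR hE hsh hcmp bs hbs hd
  have hup : ∀ (g x : G), D.T.dist (D.f g) (D.f (g * x)) ≤ D.nm x + D.δ := by
    intro g x
    have h2 := D.le2 g (g * x)
    have h3 := D.inv g 1 x
    rw [mul_one] at h3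
    rw [h3] at h2
    exact h2
  have hlo : ∀ (g x : G), D.nm x ≤ D.T.dist (D.f g) (D.f (g * x)) + D.δ := by
    intro g x
    have h2 := D.le1 g (g * x)
    have h3 := D.inv g 1 x
    rw [mul_one] at h3
    rw [h3] at h2
    exact h2
  obtain ⟨cfg, hcfg, -, -, h2, h3⟩ := h1 val sh cmp θ (E + D.δ) c₁ ok (by omega)
    (fun b hb g => by
      have h4 := hup g (val b)
      have h5 := hE b hb
      omega)
    (fun b hb hs g => by
      have h4 := hlo g (val b)
      by_contra hlt
      have h5 := hsh b hb (by omega)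
      rw [hs] at h5
      exact absurd h5 (by decide))
    hcmp bs hbs
  refine ⟨cfg, hcfg, ?_⟩
  have h4 : D.T.dist (D.f 1) (D.f (bs.map val).prod) ≤ E + D.δ := by
    have h5 := hup 1 (bs.map val).prod
    rw [one_mul] at h5
    omega
  have h5 : c₁ * bs.countP sh ≤ c₁ * cfg.2 := Nat.mul_le_mul_left _ h2
  have h6 : 8 * θ * bs.length ≤ c₁ * bs.length := Nat.mul_le_mul_right _ hθ
  generalize hE' : E + D.δ = E' at *
  have h7 : (6 * E' + 2 * c₁) * (cfg.2 + 1) ≤ R * c₁ * (cfg.2 + 1) := Nat.mul_le_mul_right _ hR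
  have h9 : c₁ * bs.length ≤ c₁ * (R * (cfg.2 + 1)) := by
    nlinarith [Nat.zero_le (E' * cfg.2), Nat.zero_le (c₁ * cfg.2), Nat.zero_le E',
      Nat.zero_le (θ * cfg.1.length)]
  exact Nat.le_of_mul_le_mul_left h9 hc

end qm2

end GWQ
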